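import Pool.Agent.Lib.helper24.SemiAlg3

set_option autoImplicit false

namespace Pool.Agent.Results.MP_83c24b_al.Counter

variable {K : Type} [Field K] {n m : ℕ}

/-- the matrix entries of `g`, as a point of affine space -/
def pt (g : GL (Fin n) K) : Fin n × Fin n → K :=
  fun ij => (g : Matrix (Fin n) (Fin n) K) ij.1 ij.2

/-- `G` is Zariski closed in `GL n K`, i.e. a linear algebraic group -/
def ZClosed (G : Subgroup (GL (Fin n) K)) : Prop :=
  ∃ S : Set (MvPolynomial (Fin n × Fin n) K), ∀ g, g ∈ G ↔ ∀ p ∈ S, MvPolynomial.eval (pt g) p = 0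

/-- `G` is irreducible, i.e. a connected algebraic group -/
def Irred (G : Subgroup (GL (Fin n) K)) : Prop :=
  ∀ p q : MvPolynomial (Fin n × Fin n) K,
    (∀ g ∈ G, MvPolynomial.eval (pt g) p * MvPolynomial.eval (pt g) q = 0) →
    (∀ g ∈ G, MvPolynomial.eval (pt g) p = 0) ∨ (∀ g ∈ G, MvPolynomial.eval (pt g) q = 0)

/-- `G` is not a direct product of two nontrivial groups, even abstractly -/
def Indec (G : Type) [Group G] : Prop :=
  ∀ (A B : Type) [Group A] [Group B], Nonempty (G ≃* A × B) → Subsingleton A ∨ Subsingleton B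

/-- `G^σ`: the image of `G` under the field automorphism `σ` applied to all entries -/
def twist (σ : K ≃+* K) (G : Subgroup (GL (Fin n) K)) : Subgroup (GL (Fin n) K) :=
  G.map (Matrix.GeneralLinearGroup.map (σ : K →+* K))

/-- the entries of `g` together with `1 / det g` -/
def pt' (g : GL (Fin n) K) : Option (Fin n × Fin n) → K :=
  fun o => o.elim (Matrix.det (g : Matrix (Fin n) (Fin n) K))⁻¹ (pt g)

/-- `f` is a morphism of varieties: each entry of `f g` is a polynomial in the entries of `g`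
and in `1 / det g` -/
def Regular {G : Subgroup (GL (Fin n) K)} {H : Subgroup (GL (Fin m) K)} (f : G → H) : Prop :=
  ∀ ij : Fin m × Fin m, ∃ p : MvPolynomial (Option (Fin n × Fin n)) K, ∀ g : G,
    pt (f g).1 ij = MvPolynomial.eval (pt' g.1) p

/-- there is a homomorphism of algebraic groups `G → H` that is bijective on points -/
def BijMor (G : Subgroup (GL (Fin n) K)) (H : Subgroup (GL (Fin m) K)) : Prop :=
  ∃ α : G →* H, Regular α ∧ Function.Bijective α

/-- connected, directly indecomposable linear algebraic group with trivial centre -/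
def Nice (G : Subgroup (GL (Fin n) K)) : Prop :=
  ZClosed G ∧ Irred G ∧ Indec G ∧ Subgroup.center G = ⊥

/-- isomorphic as abstract groups -/
def AbsIso (G : Subgroup (GL (Fin n) K)) (H : Subgroup (GL (Fin m) K)) : Prop :=
  Nonempty (G ≃* H)

open Pool.Agent.Lib.helper24.SemiAlg TrivSqZeroExt

lemma zclosed (Λ : R K) : ZClosed (rho Λ).range := by
  obtain ⟨S, hS⟩ := closed_sub (MM Λ)
  exact ⟨S, fun g => (mem_range Λ g).trans (hS _)⟩

lemma irred [CharZero K] (Λ : R K) : Irred (rho Λ).range :=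
  fun p q h => conn_sub (MM Λ) _ (mem_range Λ) p q h

noncomputable def eqv (Λ : R K) : Gam Λ ≃* (rho Λ).range := MonoidHom.ofInjective (rho_inj Λ)

lemma indec' [CharZero K] (Λ : R K) : Indec (rho Λ).range :=
  fun A B _ _ ⟨e⟩ => indec A B ((eqv Λ).trans e)

lemma center' [CharZero K] (Λ : R K) : Subgroup.center (rho Λ).range = ⊥ := by
  rw [eq_bot_iff]
  intro g hg
  have h : (eqv Λ).symm g ∈ Subgroup.center (Gam Λ) := by
    rw [Subgroup.mem_center_iff] at hg ⊢
    intro k
    apply (eqv Λ).injective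
    simp [hg]
  rw [center_eq, Subgroup.mem_bot] at h
  rw [Subgroup.mem_bot]
  simpa using h

noncomputable def NN (Λ : R K) : V K →ₗ[K] Matrix (Fin (dm K)) (Fin (dm K)) K :=
  (mat.toLinearMap.comp (el Λ)).comp
    ((LinearMap.inr K _ _).comp ((LinearMap.inr K _ _).comp (LinearMap.inr K _ _)))

lemma rho_tr (Λ : R K) (v : V K) :
    (rho Λ (tr Λ v) : Matrix (Fin (dm K)) (Fin (dm K)) K) = 1 + NN Λ v := by
  rw [rho_val]
  simp [tr, NN]

lemma no_semialg [CharZero K] (l : K) (h0 : l ≠ 0) (h1 : l ≠ 1) (Λ Λ' : R K) (hΛ : Λ = inl l)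
    (hΛ' : Λ' = inl l + DualNumber.eps) (σ : K ≃+* K)
    (α : twist σ (rho Λ).range →* (rho Λ').range) (hr : Regular α)
    (hb : Function.Bijective α) : False := by
  have hinj : Function.Injective (Matrix.GeneralLinearGroup.map (n := Fin (dm K)) (σ : K →+* K)) := by
    intro a b h
    ext i j
    exact σ.injective (congrArg (fun g : GL (Fin (dm K)) K => g i j) h)
  let φ0 : (rho Λ).range ≃* twist σ (rho Λ).range := Subgroup.equivMapOfInjective _ _ hinj
  let φ : Gam Λ ≃* Gam Λ' :=
    (eqv Λ).trans (φ0.trans ((MulEquiv.ofBijective α hb).trans (eqv Λ').symm))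
  have hφ : ∀ g, rho Λ' (φ g) = (α (φ0 (eqv Λ g)) : GL (Fin (dm K)) K) := by
    intro g
    exact congrArg Subtype.val ((eqv Λ').apply_symm_apply (α (φ0 (eqv Λ g))))
  have hm : ∀ v, ((φ0 (eqv Λ (tr Λ v)) : GL (Fin (dm K)) K) : Matrix (Fin (dm K)) (Fin (dm K)) K) =
      (1 + NN Λ v).map σ := by
    intro v
    rw [← rho_tr]
    rfl
  have hψ : ∀ w, φ (tr Λ w) = tr Λ' (φ (tr Λ w)).v := fun w => map_tr φ.toMonoidHom w
  have ψadd : ∀ w u, (φ (tr Λ (w + u))).v = (φ (tr Λ w)).v + (φ (tr Λ u)).v := by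
    intro w u
    apply tr_inj (Λ := Λ')
    rw [← hψ, tr_add, map_mul, tr_add, ← hψ, ← hψ]
  refine no_semilin l h0 h1 Λ Λ' hΛ hΛ' φ σ fun a w => ?_
  apply tr_inj (Λ := Λ')
  apply rho_inj
  apply Units.ext
  rw [rho_tr, rho_tr, map_smul]
  refine congrArg (1 + ·) ?_
  ext i j
  have hent : ∀ (c : K) (b : K) (i j : Fin (dm K)), ((1 + NN Λ ((c * σ.symm b) • w)).map σ) i j =
      σ ((1 : Matrix (Fin (dm K)) (Fin (dm K)) K) i j) + b * σ (c * NN Λ w i j) := by
    intro c b i j
    simp only [Matrix.map_apply, Matrix.add_apply, map_smul, Matrix.smul_apply, smul_eq_mul,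
      map_add, map_mul, RingEquiv.apply_symm_apply]
    ring
  have hp : IsPoly fun b => NN Λ' (φ (tr Λ (σ.symm b • w))).v i j := by
    obtain ⟨p, hp⟩ := hr (i, j)
    obtain ⟨P, hP⟩ := poly_mv (fun b (o : Option (Fin (dm K) × Fin (dm K))) => o.elim
      (Matrix.det ((1 + NN Λ ((-1 * σ.symm b) • w)).map σ))
      (fun ij => ((1 + NN Λ ((1 * σ.symm b) • w)).map σ) ij.1 ij.2)) (by
        rintro (_ | ij)
        · exact poly_det _ fun i j => by simp only [hent]; exact poly_lin _ _
        · simp only [Option.elim_some, hent]; exact poly_lin _ _) p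
    refine ⟨P - Polynomial.C ((1 : Matrix (Fin (dm K)) (Fin (dm K)) K) i j), fun b => ?_⟩
    rw [Polynomial.eval_sub, Polynomial.eval_C, ← hP, eq_sub_iff_add_eq', ← Matrix.add_apply,
      ← rho_tr, ← hψ, hφ]
    refine (hp _).trans ?_
    congr 2
    funext o
    rcases o with _ | ij
    · simp only [Option.elim_none, pt']
      apply inv_eq_of_mul_eq_one_right
      rw [← hm, ← Matrix.det_mul, ← Units.val_mul, ← Subgroup.coe_mul, ← map_mul, ← map_mul,
        ← tr_add, ← add_smul, hm]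
      simp
    · simp only [Option.elim_some, pt', pt, hm, one_mul]
  have := poly_add _ hp (fun s t => by
    simp only [map_add, add_smul, ψadd, Matrix.add_apply]) (σ a)
  simpa using this

theorem result : ∃ (K : Type) (_ : Field K) (_ : IsAlgClosed K) (n m : ℕ)
    (G : Subgroup (GL (Fin n) K)) (H : Subgroup (GL (Fin m) K)),
    Nice G ∧ Nice H ∧ AbsIso G H ∧ ¬ ∃ σ : K ≃+* K, BijMor (twist σ G) H := by
  obtain ⟨θ, hθ⟩ := exists_theta
  obtain ⟨e⟩ := iso θ (inl lam)
  refine ⟨KK, inferInstance, inferInstance, dm KK, dm KK, (rho (inl lam)).range,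
    (rho (θ (inl lam))).range, ⟨zclosed _, irred _, indec' _, center' _⟩,
    ⟨zclosed _, irred _, indec' _, center' _⟩, ⟨(eqv _).symm.trans (e.trans (eqv _))⟩, ?_⟩
  rintro ⟨σ, α, hr, hb⟩
  exact no_semialg lam lam_ne.1 lam_ne.2 _ _ rfl hθ σ α hr hb

end Pool.Agent.Results.MP_83c24b_al.Counter
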